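import Pool.Agent.REV.StmtsV3

set_option autoImplicit false

/-!
# Squad REV, row VQ3
-/

namespace Pool.Agent.REV.H49

open Set MeasureTheory Filter
open scoped Topology

/-- row VQ3 -/
theorem vq3 (vd3 : Vd3Stmt) (vm3 : Vm3Stmt) : Vq3Stmt := by
  intro f b hf hb
  obtain ⟨hd, _, hdc⟩ := vd3 f hf
  obtain ⟨_, hyc, hR, hy, _, _, hint, hI, hB⟩ := vm3 f hf
  have hph0 : ∀ β : ℝ, 0 ≤ β → 0 ≤ ph 3 f β := fun β hβ => pow_nonneg (hy β hβ).1 _
  have hphR : ∀ β : ℝ, 0 ≤ β → ph 3 f β ≤ RA 3 f 1 ^ 2 := fun β hβ =>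
    pow_le_pow_left₀ (hy β hβ).1 (hy β hβ).2 _
  have hphc : ContinuousOn (ph 3 f) (Ici 0) := hyc.pow _
  have mg : Measurable fun β : ℝ => min 1 (b / β) :=
    measurable_const.min (measurable_const.div measurable_id)
  -- integrability of the products
  have hin : IntegrableOn (fun β : ℝ => min 1 (b / β) * dph 3 f β) (Ioi 0) := by
    refine Integrable.mono hint (mg.aestronglyMeasurable.mul hint.aestronglyMeasurable) ?_
    refine (ae_restrict_mem measurableSet_Ioi).mono fun β hβ => ?_
    have hβ' : 0 < β := hβ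
    rw [norm_mul]
    refine mul_le_of_le_one_left (norm_nonneg _) ?_
    rw [Real.norm_of_nonneg (le_min zero_le_one (by positivity))]
    exact min_le_left _ _
  have hIoc : ∀ B : ℝ, 0 ≤ B → ∫ β in Ioc 0 B, dph 3 f β = ph 3 f B := by
    intro B hB0
    have h1 : ∫ β in Ioi (0 : ℝ), dph 3 f β =
        (∫ β in Ioc 0 B, dph 3 f β) + ∫ β in Ioi B, dph 3 f β := by
      rw [← setIntegral_union (Ioc_disjoint_Ioi le_rfl) measurableSet_Ioi
        (hint.mono_set Ioc_subset_Ioi_self) (hint.mono_set (Ioi_subset_Ioi hB0)),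
        Ioc_union_Ioi_eq_Ioi hB0]
    rw [hI, hB B hB0] at h1
    linarith
  have hsplit : ∀ B : ℝ, 0 ≤ B →
      ∫ β in Ioi (0 : ℝ), min 1 (b / β) * dph 3 f β =
        (∫ β in Ioc 0 B, min 1 (b / β) * dph 3 f β) +
          ∫ β in Ioi B, min 1 (b / β) * dph 3 f β := by
    intro B hB0
    rw [← setIntegral_union (Ioc_disjoint_Ioi le_rfl) measurableSet_Ioi
        (hin.mono_set Ioc_subset_Ioi_self)
        (hin.mono_set (Ioi_subset_Ioi hB0)),
        Ioc_union_Ioi_eq_Ioi hB0]
  have hq : IntegrableOn (fun β : ℝ => (β ^ 2)⁻¹ * ph 3 f β) (Ioi b) := by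
    have h1 : IntegrableOn (fun β : ℝ => β ^ (-2 : ℝ)) (Ioi b) :=
      integrableOn_Ioi_rpow_of_lt (by norm_num) hb
    refine Integrable.mono (h1.mul_const (RA 3 f 1 ^ 2)) ?_ ?_
    · refine ContinuousOn.aestronglyMeasurable ?_ measurableSet_Ioi
      refine ContinuousOn.mul ?_ (hphc.mono fun β hβ => (hb.trans hβ).le)
      exact ContinuousOn.inv₀ (by fun_prop) fun β hβ => pow_ne_zero _ (hb.trans hβ).ne'
    · refine (ae_restrict_mem measurableSet_Ioi).mono fun β hβ => ?_
      have hβ' : 0 < β := hb.trans hβ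
      have e : β ^ (-2 : ℝ) = (β ^ 2)⁻¹ := by
        rw [Real.rpow_neg hβ'.le]
        norm_num
      rw [norm_mul, norm_mul, e]
      refine mul_le_mul_of_nonneg_left ?_ (norm_nonneg _)
      rw [Real.norm_of_nonneg (hph0 β hβ'.le), Real.norm_of_nonneg (pow_nonneg hR _)]
      exact hphR β hβ'.le
  refine ⟨hin, ?_, hq, ?_⟩
  · intro B hB0
    rw [hsplit B hB0.le]
    have h1 : ∫ β in Ioc 0 B, min 1 (b / β) * dph 3 f β ≤
        ∫ β in Ioc 0 B, dph 3 f β := by
      refine setIntegral_mono_on (hin.mono_set Ioc_subset_Ioi_self)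
        (hint.mono_set Ioc_subset_Ioi_self) measurableSet_Ioc fun β hβ => ?_
      exact mul_le_of_le_one_left (hd β hβ.1).2.2.2 (min_le_left _ _)
    have h2 : ∫ β in Ioi B, min 1 (b / β) * dph 3 f β ≤
        ∫ β in Ioi B, b / B * dph 3 f β := by
      refine setIntegral_mono_on (hin.mono_set (Ioi_subset_Ioi hB0.le))
        ((hint.mono_set (Ioi_subset_Ioi hB0.le)).const_mul _) measurableSet_Ioi fun β hβ => ?_
      have hβ' : 0 < β := hB0.trans hβ
      refine mul_le_mul_of_nonneg_right ?_ (hd β hβ').2.2.2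
      exact (min_le_right _ _).trans (div_le_div_of_nonneg_left hb.le hB0 (le_of_lt hβ))
    rw [hIoc B hB0.le] at h1
    rw [integral_const_mul, hB B hB0.le] at h2
    have h3 := hph0 B hB0.le
    have h4 : 0 ≤ b / B := by positivity
    nlinarith
  · refine le_of_eq ?_
    rw [hsplit b hb.le]
    have h2 : ∫ β in Ioc 0 b, min 1 (b / β) * dph 3 f β = ph 3 f b := by
      rw [← hIoc b hb.le]
      refine setIntegral_congr_fun measurableSet_Ioc fun β hβ => ?_
      have : (1 : ℝ) ≤ b / β := (one_le_div hβ.1).2 hβ.2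
      simp only [min_eq_left this, one_mul]
    have h3 : ∫ β in Ioi b, min 1 (b / β) * dph 3 f β = ∫ β in Ioi b, b / β * dph 3 f β := by
      refine setIntegral_congr_fun measurableSet_Ioi fun β hβ => ?_
      have hβ' : 0 < β := hb.trans hβ
      have : b / β ≤ 1 := (div_le_one hβ').2 (le_of_lt hβ)
      simp only [min_eq_right this]
    have i3 : IntegrableOn (fun β : ℝ => b / β * dph 3 f β) (Ioi b) := by
      refine (hin.mono_set (Ioi_subset_Ioi hb.le)).congr_fun
        (fun β hβ => ?_) measurableSet_Ioi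
      have hβ' : 0 < β := hb.trans hβ
      have : b / β ≤ 1 := (div_le_one hβ').2 (le_of_lt hβ)
      simp only [min_eq_right this]
    have i4 : IntegrableOn (fun β : ℝ => b * ((β ^ 2)⁻¹ * ph 3 f β)) (Ioi b) := hq.const_mul b
    have h4 : ∫ β in Ioi b, (b / β * dph 3 f β - b * ((β ^ 2)⁻¹ * ph 3 f β)) =
        0 - b / b * ph 3 f b := by
      refine integral_Ioi_of_hasDerivAt_of_tendsto (f := fun β => b / β * ph 3 f β) ?_ ?_
        (i3.sub i4) ?_
      · refine ContinuousWithinAt.mul ?_ ((hphc b hb.le).mono fun β hβ => hb.le.trans hβ)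
        exact (continuousAt_const.div continuousAt_id hb.ne').continuousWithinAt
      · intro β hβ
        have hβ' : 0 < β := hb.trans hβ
        have d1 : HasDerivAt (fun β : ℝ => b / β) (-(b / β ^ 2)) β := by
          have := (hasDerivAt_inv hβ'.ne').const_mul b
          refine this.congr_deriv ?_
          ring
        have d2 := d1.mul (hd β hβ').2.1
        refine d2.congr_deriv ?_
        ring
      · have t1 : Tendsto (fun β : ℝ => b / β * RA 3 f 1 ^ 2) atTop (𝓝 0) := by
          have := (tendsto_const_nhds (x := b)).div_atTop (tendsto_id (α := ℝ) (x := atTop))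
          have := this.mul_const (RA 3 f 1 ^ 2)
          simpa using this
        refine squeeze_zero' ?_ ?_ t1
        · filter_upwards [eventually_gt_atTop 0] with β hβ
          exact mul_nonneg (by positivity) (hph0 β hβ.le)
        · filter_upwards [eventually_gt_atTop 0] with β hβ
          exact mul_le_mul_of_nonneg_left (hphR β hβ.le) (by positivity)
    rw [integral_sub i3 i4, integral_const_mul, div_self hb.ne'] at h4
    rw [h2, h3]
    linarith

end Pool.Agent.REV.H49
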