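import Pool.Agent.REV.StmtsU3
import Pool.Agent.Helper65_REV.A13All

set_option autoImplicit false

namespace Pool.Agent.REV.H49

namespace FX3

open Set Filter MeasureTheory
open scoped Topology

/-- the weight of `RA` -/
noncomputable def wA (n : ℕ) (r : ℝ) : ℝ := (1 - r ^ 2) ^ (((n : ℝ) - 2) / 2)

/-- the weight of `RB` -/
noncomputable def wB (n : ℕ) (r : ℝ) : ℝ := r ^ 2 * (1 - r ^ 2) ^ (((n : ℝ) - 4) / 2)

/-- admissible weights -/
structure Wt (w : ℝ → ℝ) : Prop where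
  meas : Measurable w
  pos : ∀ r ∈ Ioo (0 : ℝ) 1, 0 < w r
  int : IntegrableOn w (Ioo (0 : ℝ) 1)

theorem wt_A (n : ℕ) (hn : 3 ≤ n) : Wt (wA n) := by
  refine ⟨?_, ?_, ?_⟩
  · unfold wA
    exact (measurable_const.sub (measurable_id.pow_const 2)).pow_const _
  · intro r hr
    have h1 : 0 < 1 - r ^ 2 := by nlinarith [hr.1, hr.2]
    exact Real.rpow_pos_of_pos h1 _
  · have h := (H65.int3All n hn).1
    rw [intervalIntegrable_iff_integrableOn_Ioc_of_le zero_le_one] at h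
    exact h.mono_set Ioo_subset_Ioc_self

theorem wt_B (n : ℕ) (hn : 3 ≤ n) : Wt (wB n) := by
  refine ⟨?_, ?_, ?_⟩
  · unfold wB
    exact (measurable_id.pow_const 2).mul
      ((measurable_const.sub (measurable_id.pow_const 2)).pow_const _)
  · intro r hr
    have h1 : 0 < 1 - r ^ 2 := by nlinarith [hr.1, hr.2]
    have h3 : 0 < r ^ 2 := by have := hr.1; positivity
    exact mul_pos h3 (Real.rpow_pos_of_pos h1 _)
  · have h := (H65.int3All n hn).2.1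
    rw [intervalIntegrable_iff_integrableOn_Ioc_of_le zero_le_one] at h
    exact h.mono_set Ioo_subset_Ioc_self

/-- the total weight -/
noncomputable def Wtot (w : ℝ → ℝ) : ℝ := ∫ r in Ioo (0 : ℝ) 1, w r

theorem wtot_nonneg {w : ℝ → ℝ} (hw : Wt w) : 0 ≤ Wtot w :=
  setIntegral_nonneg measurableSet_Ioo fun r hr => (hw.pos r hr).le

/-- the weighted integral -/
noncomputable def Wi (w f : ℝ → ℝ) (c : ℝ) : ℝ := ∫ r in Ioo (0 : ℝ) 1, w r * f (r * c)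

theorem RA_eq (n : ℕ) (f : ℝ → ℝ) (c : ℝ) : RA n f c = Wi (wA n) f c := by
  unfold RA Wi wA
  rw [intervalIntegral.integral_of_le zero_le_one, integral_Ioc_eq_integral_Ioo]

theorem RB_eq (n : ℕ) (f : ℝ → ℝ) (c : ℝ) : RB n f c = Wi (wB n) f c := by
  unfold RB Wi wB
  rw [intervalIntegral.integral_of_le zero_le_one, integral_Ioc_eq_integral_Ioo]

theorem wi_int {w f : ℝ → ℝ} {M : ℝ} (hw : Wt w) (hf : Measurable f) (hM : ∀ t, |f t| ≤ M)
    (c : ℝ) : IntegrableOn (fun r => w r * f (r * c)) (Ioo (0 : ℝ) 1) := by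
  refine Integrable.mul_bdd (c := M) hw.int ?_ ?_
  · exact (hf.comp (measurable_id.mul_const c)).aestronglyMeasurable
  · exact Filter.Eventually.of_forall fun r => by
      rw [Real.norm_eq_abs]
      exact hM _

theorem wi_bdd {w f : ℝ → ℝ} {M : ℝ} (hw : Wt w) (hM : ∀ t, |f t| ≤ M) (c : ℝ) :
    |Wi w f c| ≤ Wtot w * M := by
  unfold Wi Wtot
  rw [← integral_mul_const, ← Real.norm_eq_abs]
  refine norm_integral_le_of_norm_le (hw.int.mul_const M) ?_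
  filter_upwards [ae_restrict_mem measurableSet_Ioo] with r hr
  rw [Real.norm_eq_abs, abs_mul, abs_of_pos (hw.pos r hr)]
  exact mul_le_mul_of_nonneg_left (hM _) (hw.pos r hr).le

theorem wi_meas {w f : ℝ → ℝ} (hw : Wt w) (hf : Measurable f) : Measurable (Wi w f) := by
  have h : Measurable (fun p : ℝ × ℝ => w p.2 * f (p.2 * p.1)) :=
    (hw.meas.comp measurable_snd).mul (hf.comp (measurable_snd.mul measurable_fst))
  exact (h.stronglyMeasurable.integral_prod_right' (ν := volume.restrict (Ioo (0 : ℝ) 1))).measurable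

theorem wi_nonneg {w f : ℝ → ℝ} (hw : Wt w) (hf0 : ∀ t, 0 ≤ f t) (c : ℝ) : 0 ≤ Wi w f c :=
  setIntegral_nonneg measurableSet_Ioo fun r hr => mul_nonneg (hw.pos r hr).le (hf0 _)

theorem wi_pos_iff {w f : ℝ → ℝ} {M : ℝ} (hw : Wt w) (hf : Measurable f) (hM : ∀ t, |f t| ≤ M)
    (hf0 : ∀ t, 0 ≤ f t) (c : ℝ) :
    0 < Wi w f c ↔ 0 < volume ({r : ℝ | f (r * c) ≠ 0} ∩ Ioo (0 : ℝ) 1) := by
  unfold Wi
  rw [setIntegral_pos_iff_support_of_nonneg_ae ?_ (wi_int hw hf hM c)]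
  · have h : Function.support (fun r => w r * f (r * c)) ∩ Ioo (0 : ℝ) 1 =
        {r : ℝ | f (r * c) ≠ 0} ∩ Ioo (0 : ℝ) 1 := by
      ext r
      constructor
      · rintro ⟨h1, h2⟩
        exact ⟨fun h3 => h1 (by simp only [h3, mul_zero]), h2⟩
      · rintro ⟨h1, h2⟩
        exact ⟨mul_ne_zero (hw.pos r h2).ne' h1, h2⟩
    rw [h]
  · filter_upwards [ae_restrict_mem measurableSet_Ioo] with r hr
    exact mul_nonneg (hw.pos r hr).le (hf0 _)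

theorem wi_congr {w f g : ℝ → ℝ} {c k : ℝ} (hc0 : 0 ≤ c) (hc1 : c ≤ 1)
    (h : ∀ t ∈ Ico (0 : ℝ) 1, f t = k * g t) : Wi w f c = k * Wi w g c := by
  unfold Wi
  rw [← integral_const_mul]
  refine setIntegral_congr_fun measurableSet_Ioo fun r hr => ?_
  have h1 : r * c ∈ Ico (0 : ℝ) 1 := by
    refine ⟨mul_nonneg hr.1.le hc0, ?_⟩
    calc r * c ≤ r * 1 := mul_le_mul_of_nonneg_left hc1 hr.1.le
      _ < 1 := by rw [mul_one]; exact hr.2
  rw [h _ h1]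
  ring

/-- `sqrt (1 - t^2)` is in `[0, 1]`. -/
theorem sq_mem (t : ℝ) : Real.sqrt (1 - t ^ 2) ∈ Icc (0 : ℝ) 1 := by
  refine ⟨Real.sqrt_nonneg _, ?_⟩
  rw [Real.sqrt_le_one]
  nlinarith [sq_nonneg t]

theorem sq_pos {t : ℝ} (ht : t ∈ Ico (0 : ℝ) 1) : 0 < Real.sqrt (1 - t ^ 2) :=
  Real.sqrt_pos.2 (by nlinarith [ht.1, ht.2])

theorem tt_eq (n : ℕ) (D : ℝ) (f : ℝ → ℝ) (t : ℝ) : TT n (n - 1) 0 D f t =
    D * (RB n f (Real.sqrt (1 - t ^ 2)) * RA n f (Real.sqrt (1 - t ^ 2)) ^ (n - 2)) := by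
  unfold TT
  rw [zero_mul, zero_add, Nat.sub_sub]

theorem tt_meas (n : ℕ) (hn : 3 ≤ n) (D : ℝ) (f : ℝ → ℝ) (hf : Measurable f) :
    Measurable (TT n (n - 1) 0 D f) := by
  have h1 : Measurable (fun t : ℝ => Real.sqrt (1 - t ^ 2)) :=
    (measurable_const.sub (measurable_id.pow_const 2)).sqrt
  have h2 : Measurable (RA n f) := by
    have := wi_meas (wt_A n hn) hf
    rwa [show RA n f = Wi (wA n) f from funext fun c => RA_eq n f c]
  have h3 : Measurable (RB n f) := by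
    have := wi_meas (wt_B n hn) hf
    rwa [show RB n f = Wi (wB n) f from funext fun c => RB_eq n f c]
  rw [show TT n (n - 1) 0 D f = fun t => D * (RB n f (Real.sqrt (1 - t ^ 2)) *
    RA n f (Real.sqrt (1 - t ^ 2)) ^ (n - 2)) from funext fun t => tt_eq n D f t]
  exact measurable_const.mul ((h3.comp h1).mul ((h2.comp h1).pow_const _))

theorem tt_bdd (n : ℕ) (hn : 3 ≤ n) (D : ℝ) (f : ℝ → ℝ) {M : ℝ} (hM : ∀ t, |f t| ≤ M) :
    ∃ C, ∀ t, |TT n (n - 1) 0 D f t| ≤ C := by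
  refine ⟨|D| * ((Wtot (wB n) * M) * (Wtot (wA n) * M) ^ (n - 2)), fun t => ?_⟩
  rw [tt_eq, abs_mul, abs_mul, abs_pow]
  have h1 := wi_bdd (wt_A n hn) hM (Real.sqrt (1 - t ^ 2))
  have h2 := wi_bdd (wt_B n hn) hM (Real.sqrt (1 - t ^ 2))
  rw [← RA_eq] at h1
  rw [← RB_eq] at h2
  have hM0 : 0 ≤ M := (abs_nonneg _).trans (hM 0)
  have hB0 := wtot_nonneg (wt_B n hn)
  exact mul_le_mul_of_nonneg_left
    (mul_le_mul h2 (pow_le_pow_left₀ (abs_nonneg _) h1 _) (by positivity) (by positivity))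
    (abs_nonneg _)

theorem tt_nonneg (n : ℕ) (hn : 3 ≤ n) (D : ℝ) (hD : 0 < D) (f : ℝ → ℝ) (hf0 : ∀ t, 0 ≤ f t)
    (t : ℝ) : 0 ≤ TT n (n - 1) 0 D f t := by
  rw [tt_eq, RA_eq, RB_eq]
  have h1 := wi_nonneg (wt_A n hn) hf0 (Real.sqrt (1 - t ^ 2))
  have h2 := wi_nonneg (wt_B n hn) hf0 (Real.sqrt (1 - t ^ 2))
  positivity

/-- Row FX3. -/
theorem main (hYR : Yr3Stmt) (hC : Rt3Stmt) : Fx3Stmt := by
  rintro n D κ φ hn hD hκ hφm hφ0 ⟨M, hM⟩ hRA1 hfix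
  have hMa : ∀ t, |φ t| ≤ M := fun t => by rw [abs_of_nonneg (hφ0 t)]; exact hM t
  set f1 : ℝ → ℝ := TT n (n - 1) 0 D φ with hf1
  set f2 : ℝ → ℝ := TT n (n - 1) 0 D f1 with hf2
  have hn3 : (3 : ℝ) ≤ n := by exact_mod_cast hn
  have hY : ∀ (n : ℕ) (f : ℝ → ℝ) (c : ℝ), 3 ≤ n → Measurable f → (∃ C, ∀ t, |f t| ≤ C) → 0 < c →
      HasDerivAt (fun u => u * RA n f u) (((n : ℝ) - 2) * RB n f c) c :=
    fun n f c h1 h2 h3 h4 => (hYR n f c h1 h2 h3 h4).1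
  have hB : ∀ (n : ℕ) (f : ℝ → ℝ) (c : ℝ), 3 ≤ n → Measurable f → (∃ C, ∀ t, |f t| ≤ C) → 0 < c →
      ContinuousAt (RB n f) c :=
    fun n f c h1 h2 h3 h4 => (hYR n f c h1 h2 h3 h4).2
  have m1 : Measurable f1 := tt_meas n hn D φ hφm
  obtain ⟨M1, b1⟩ := tt_bdd n hn D φ hMa
  have p1 : ∀ t, 0 ≤ f1 t := tt_nonneg n hn D hD φ hφ0
  -- continuity of `RA φ`, `RB φ` on the positive half line
  have cA : ∀ c : ℝ, 0 < c → ContinuousAt (RA n φ) c := by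
    intro c hc
    have h := (hY n φ c hn hφm ⟨M, hMa⟩ hc).continuousAt
    have h2 : ContinuousAt (fun u : ℝ => (u * RA n φ u) / u) c := h.div continuousAt_id hc.ne'
    refine h2.congr ?_
    filter_upwards [lt_mem_nhds hc] with u hu
    field_simp
  have cB : ∀ c : ℝ, 0 < c → ContinuousAt (RB n φ) c := fun c hc => hB n φ c hn hφm ⟨M, hMa⟩ hc
  have csq : Continuous (fun t : ℝ => Real.sqrt (1 - t ^ 2)) := by fun_prop
  -- continuity of `f1`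
  have c1 : ContinuousOn f1 (Ico 0 1) := by
    intro t ht
    have hs := sq_pos ht
    have h1 : ContinuousAt (fun t => D * (RB n φ (Real.sqrt (1 - t ^ 2)) *
        RA n φ (Real.sqrt (1 - t ^ 2)) ^ (n - 2))) t :=
      continuousAt_const.mul ((ContinuousAt.comp (f := fun t : ℝ => Real.sqrt (1 - t ^ 2)) (g := RB n φ) (cB _ hs)
          csq.continuousAt).mul
        ((ContinuousAt.comp (f := fun t : ℝ => Real.sqrt (1 - t ^ 2)) (g := RA n φ) (cA _ hs)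
          csq.continuousAt).pow _))
    rw [show f1 = fun t => D * (RB n φ (Real.sqrt (1 - t ^ 2)) *
      RA n φ (Real.sqrt (1 - t ^ 2)) ^ (n - 2)) from funext fun t => tt_eq n D φ t]
    exact h1.continuousWithinAt
  -- the relation between `RB φ` and `RB f1`
  have hRBo : ∀ c ∈ Ioo (0 : ℝ) 1, RB n φ c = κ * RB n f1 c := by
    intro c hc
    have d1 := hY n φ c hn hφm ⟨M, hMa⟩ hc.1
    have d2 := (hY n f1 c hn m1 ⟨M1, b1⟩ hc.1).const_mul κ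
    have he : (fun u => u * RA n φ u) =ᶠ[𝓝 c] fun u => κ * (u * RA n f1 u) := by
      filter_upwards [Ioo_mem_nhds hc.1 hc.2] with u hu
      rw [hfix u ⟨hu.1, hu.2.le⟩]
      ring
    have d3 := d2.congr_of_eventuallyEq he
    have h := d1.unique d3
    have hpos : (0 : ℝ) < (n : ℝ) - 2 := by linarith
    have h' : ((n : ℝ) - 2) * RB n φ c = ((n : ℝ) - 2) * (κ * RB n f1 c) := by
      rw [h]; ring
    exact mul_left_cancel₀ hpos.ne' h'
  have hRB : ∀ c ∈ Ioc (0 : ℝ) 1, RB n φ c = κ * RB n f1 c := by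
    intro c hc
    rcases hc.2.lt_or_eq with h | h
    · exact hRBo c ⟨hc.1, h⟩
    · subst h
      have t1 : Tendsto (RB n φ) (𝓝[<] (1 : ℝ)) (𝓝 (RB n φ 1)) :=
        (cB 1 one_pos).tendsto.mono_left nhdsWithin_le_nhds
      have t2 : Tendsto (fun c => κ * RB n f1 c) (𝓝[<] (1 : ℝ)) (𝓝 (κ * RB n f1 1)) :=
        ((hB n f1 1 hn m1 ⟨M1, b1⟩ one_pos).tendsto.mono_left nhdsWithin_le_nhds).const_mul κ
      refine tendsto_nhds_unique (t1.congr' ?_) t2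
      filter_upwards [Ioo_mem_nhdsLT (show (0 : ℝ) < 1 by norm_num)] with c hc
      exact hRBo c hc
  -- `f1 = κ ^ (n - 1) f2` on `[0, 1)`
  have hpk : κ * κ ^ (n - 2) = κ ^ (n - 1) := by
    rw [← pow_succ']
    congr 1
    omega
  have h12 : ∀ t ∈ Ico (0 : ℝ) 1, f1 t = κ ^ (n - 1) * f2 t := by
    intro t ht
    have hs := sq_pos ht
    have hs1 := (sq_mem t).2
    rw [hf1, hf2, tt_eq, tt_eq, hRB _ ⟨hs, hs1⟩, hfix _ ⟨hs, hs1⟩, mul_pow, ← hpk]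
    ring
  have hK : 0 < κ ^ (n - 1) := by positivity
  have rA : ∀ c ∈ Icc (0 : ℝ) 1, RA n f1 c = κ ^ (n - 1) * RA n f2 c := by
    intro c hc
    rw [RA_eq, RA_eq]
    exact wi_congr hc.1 hc.2 h12
  have rB : ∀ c ∈ Icc (0 : ℝ) 1, RB n f1 c = κ ^ (n - 1) * RB n f2 c := by
    intro c hc
    rw [RB_eq, RB_eq]
    exact wi_congr hc.1 hc.2 h12
  -- positivity
  have q1 : 0 < RB n φ 1 := by
    rw [RB_eq, wi_pos_iff (wt_B n hn) hφm hMa hφ0 1]
    rwa [RA_eq, wi_pos_iff (wt_A n hn) hφm hMa hφ0 1] at hRA1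
  have q2 : 0 < f1 0 := by
    rw [hf1, tt_eq]
    have h0 : Real.sqrt (1 - (0 : ℝ) ^ 2) = 1 := by norm_num
    rw [h0]
    positivity
  obtain ⟨δ, hδ, hδ1, q3⟩ : ∃ δ : ℝ, 0 < δ ∧ δ ≤ 1 ∧ ∀ t ∈ Ico (0 : ℝ) δ, 0 < f1 t := by
    have h := (c1 0 ⟨le_rfl, one_pos⟩).eventually (lt_mem_nhds q2)
    have h2 : {t | 0 < f1 t} ∈ 𝓝[≥] (0 : ℝ) := by
      have h3 : 𝓝[Ico (0 : ℝ) 1] (0 : ℝ) = 𝓝[≥] (0 : ℝ) := nhdsWithin_Ico_eq_nhdsGE one_pos
      rw [← h3]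
      exact h
    obtain ⟨δ, hδ, hsub⟩ := mem_nhdsGE_iff_exists_Ico_subset.1 h2
    refine ⟨min δ 1, lt_min hδ one_pos, min_le_right _ _, fun t ht => hsub ⟨ht.1, ?_⟩⟩
    exact lt_of_lt_of_le ht.2 (min_le_left _ _)
  have q4 : ∀ c ∈ Icc (0 : ℝ) 1, 0 < RA n f1 c := by
    intro c hc
    rw [RA_eq, wi_pos_iff (wt_A n hn) m1 b1 p1 c]
    refine lt_of_lt_of_le ?_ (measure_mono (show Ioo (0 : ℝ) δ ⊆ _ from ?_))
    · rw [Real.volume_Ioo, sub_zero]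
      exact ENNReal.ofReal_pos.2 hδ
    · intro r hr
      refine ⟨(q3 (r * c) ⟨mul_nonneg hr.1.le hc.1, ?_⟩).ne', hr.1, hr.2.trans_le hδ1⟩
      calc r * c ≤ r * 1 := mul_le_mul_of_nonneg_left hc.2 hr.1.le
        _ < δ := by rw [mul_one]; exact hr.2
  have q5 : ∀ t ∈ Ico (0 : ℝ) 1, 0 < f1 t := by
    intro t ht
    have hs := sq_pos ht
    have hs1 := (sq_mem t).2
    have hA : 0 < RA n φ (Real.sqrt (1 - t ^ 2)) := by
      rw [hfix _ ⟨hs, hs1⟩]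
      exact mul_pos hκ (q4 _ ⟨hs.le, hs1⟩)
    have hBp : 0 < RB n φ (Real.sqrt (1 - t ^ 2)) := by
      rw [RB_eq, wi_pos_iff (wt_B n hn) hφm hMa hφ0]
      rwa [RA_eq, wi_pos_iff (wt_A n hn) hφm hMa hφ0] at hA
    rw [hf1, tt_eq]
    positivity
  have q6 : ∀ c ∈ Icc (0 : ℝ) 1, 0 < RB n f1 c := by
    intro c hc
    have h := q4 c hc
    rw [RB_eq, wi_pos_iff (wt_B n hn) m1 b1 p1 c]
    rwa [RA_eq, wi_pos_iff (wt_A n hn) m1 b1 p1 c] at h
  obtain ⟨c2, c3⟩ := (hC n f1 hn).1 m1 ⟨M1, b1⟩ c1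
  refine ⟨⟨D * κ ^ (n - 1) * (κ ^ (n - 1)) ^ (n - 2), by positivity, ?_, ?_, ?_⟩,
    κ ^ (n - 1), hK, h12⟩
  · -- continuity
    rw [show f2 = fun t => D * (RB n f1 (Real.sqrt (1 - t ^ 2)) *
      RA n f1 (Real.sqrt (1 - t ^ 2)) ^ (n - 2)) from funext fun t => tt_eq n D f1 t]
    have hmap : MapsTo (fun t : ℝ => Real.sqrt (1 - t ^ 2)) (Icc 0 1) (Icc 0 1) :=
      fun t _ => sq_mem t
    exact continuousOn_const.mul ((c3.comp csq.continuousOn hmap).mul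
      ((c2.comp csq.continuousOn hmap).pow _))
  · -- positivity
    intro t _
    rw [hf2, tt_eq]
    have h1 := q4 _ (sq_mem t)
    have h2 := q6 _ (sq_mem t)
    positivity
  · -- the equation
    intro t _
    have h1 : f2 t = D * (RB n f1 (Real.sqrt (1 - t ^ 2)) *
      RA n f1 (Real.sqrt (1 - t ^ 2)) ^ (n - 2)) := tt_eq n D f1 t
    rw [h1, rA _ (sq_mem t), rB _ (sq_mem t), mul_pow]
    ring

end FX3

/-- Row FX3. -/
theorem fx3 (yr3 : Yr3Stmt) (rt3 : Rt3Stmt) : Fx3Stmt := FX3.main yr3 rt3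


end Pool.Agent.REV.H49

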