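import Pool.Agent.REV.StmtsG3

/-!
# Squad REV, row LWV: the law of the height on the unit sphere of `u^⊥`, all functions
-/

set_option autoImplicit false

open MeasureTheory Module Set Filter
open scoped RealInnerProductSpace Pointwise Topology ENNReal

namespace Pool.Agent.REV.H49

open Pool.Agent.BPH

theorem lwv (msu : MsuStmt) (lwh : LwhStmt) : LwvStmt := by
  intro E _ _ _ _ _ hn
  set a : ℝ := ((finrank ℝ E : ℝ) - 4) / 2 with ha
  have ha0 : 0 ≤ a := by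
    have : (4 : ℝ) ≤ finrank ℝ E := by exact_mod_cast hn
    rw [ha]
    linarith
  set w : ℝ → ℝ := fun x => (1 - x ^ 2) ^ a with hw
  have hwc : Continuous w := by
    refine Continuous.rpow_const (by fun_prop) fun x => Or.inr ha0
  have hpos : 0 < ∫ x in (-1 : ℝ)..1, w x := by
    refine intervalIntegral.intervalIntegral_pos_of_pos_on (hwc.intervalIntegrable _ _) ?_
      (by norm_num)
    intro x hx
    refine Real.rpow_pos_of_pos ?_ _
    nlinarith [hx.1, hx.2]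
  refine ⟨(∫ x in (-1 : ℝ)..1, w x)⁻¹, inv_pos.2 hpos, ?_⟩
  intro u e' hu he hue ψ hψ
  have hu0 : u ≠ 0 := by
    intro h
    rw [h, norm_zero] at hu
    exact zero_ne_one hu
  have hfin : finrank ℝ (ℝ ∙ u)ᗮ = finrank ℝ E - 1 := by
    have h1 := Submodule.finrank_add_finrank_orthogonal (ℝ ∙ u)
    rw [finrank_span_singleton hu0] at h1
    omega
  have hmem : e' ∈ (ℝ ∙ u)ᗮ := by
    rw [Submodule.mem_orthogonal_singleton_iff_inner_right]
    exact hue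
  have hne : (ℝ ∙ u)ᗮ ≠ ⊥ := by
    intro h
    rw [h, Submodule.mem_bot] at hmem
    rw [hmem, norm_zero] at he
    exact zero_ne_one he
  have hT : Tst (fun x : E => ψ ⟪e', x⟫) := by
    obtain ⟨C, hC⟩ := hψ.2
    exact ⟨hψ.1.comp (by fun_prop), C, fun x => hC _⟩
  rw [msu (ℝ ∙ u)ᗮ hne _ hT]
  have hL := lwh (ℝ ∙ u)ᗮ (by omega) ⟨e', hmem⟩ he ψ hψ
  have hexp : (((finrank ℝ (ℝ ∙ u)ᗮ : ℕ) : ℝ) - 3) / 2 = a := by
    rw [hfin, Nat.cast_sub (by omega), ha]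
    push_cast
    ring
  rw [hexp] at hL
  show ∫ y : (ℝ ∙ u)ᗮ, ψ ⟪e', (y : E)⟫ ∂sph (ℝ ∙ u)ᗮ =
    (∫ x in (-1 : ℝ)..1, w x)⁻¹ * ∫ x in (-1 : ℝ)..1, w x * ψ x
  have hL' : (∫ x in (-1 : ℝ)..1, w x) * ∫ y : (ℝ ∙ u)ᗮ, ψ ⟪e', (y : E)⟫ ∂sph (ℝ ∙ u)ᗮ =
      ∫ x in (-1 : ℝ)..1, w x * ψ x := hL
  rw [← hL']
  field_simp

end Pool.Agent.REV.H49
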